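import Pool.Agent.Y920.QB.Qs

/-! The structure theorem for quaternionic structures with value groups of bounded index
(job QB-STR, for helper920). -/

set_option autoImplicit false

namespace Pool.Agent.Y978.QB

open Pool.Agent.H315R3.ETC Module Pool.Agent.Y920.QB

/-- the numerical estimate -/
theorem num_le (k : ℕ) : (k + 1) * (2 * k ^ 3 + 16 * k ^ 2) ≤ 16 * 4 ^ k := by
  rcases Nat.lt_or_ge k 2 with h | h
  · interval_cases k <;> norm_num
  · induction k, h using Nat.le_induction with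
    | base => norm_num
    | succ k hk ih =>
      have h1 : (k + 1 + 1) * (2 * (k + 1) ^ 3 + 16 * (k + 1) ^ 2) ≤
          4 * ((k + 1) * (2 * k ^ 3 + 16 * k ^ 2)) := by
        obtain ⟨m, rfl⟩ := Nat.exists_eq_add_of_le hk
        ring_nf
        nlinarith [sq_nonneg (m : ℤ), Nat.zero_le m, Nat.zero_le (m ^ 2), Nat.zero_le (m ^ 3),
          Nat.zero_le (m ^ 4)]
      calc _ ≤ 4 * ((k + 1) * (2 * k ^ 3 + 16 * k ^ 2)) := h1
        _ ≤ 4 * (16 * 4 ^ k) := Nat.mul_le_mul_left 4 ih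
        _ = 16 * 4 ^ (k + 1) := by ring

theorem num_le2 {k r n c : ℕ} (hr : r ≤ k) (hn : n ≤ r) (hc : c ≤ 2 * k ^ 3 + k ^ 2) :
    (n + 1) * (4 ^ r * (c + 15 * r ^ 2)) ≤ 16 * 16 ^ k := by
  have h1 : c + 15 * r ^ 2 ≤ 2 * k ^ 3 + 16 * k ^ 2 := by
    have : r ^ 2 ≤ k ^ 2 := Nat.pow_le_pow_left hr 2
    omega
  have h2 : 4 ^ r ≤ 4 ^ k := Nat.pow_le_pow_right (by norm_num) hr
  calc (n + 1) * (4 ^ r * (c + 15 * r ^ 2))
      ≤ (k + 1) * (4 ^ k * (2 * k ^ 3 + 16 * k ^ 2)) :=
        Nat.mul_le_mul (by omega) (Nat.mul_le_mul h2 h1)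
    _ = 4 ^ k * ((k + 1) * (2 * k ^ 3 + 16 * k ^ 2)) := by ring
    _ ≤ 4 ^ k * (16 * 4 ^ k) := Nat.mul_le_mul_left _ (num_le k)
    _ = 16 * (4 ^ k * 4 ^ k) := by ring
    _ = 16 * 16 ^ k := by rw [← mul_pow]; norm_num

theorem card_pow {V : Type} [AddCommGroup V] [Module (ZMod 2) V] [Finite V] :
    Nat.card V = 2 ^ finrank (ZMod 2) V := by
  have h := Module.natCard_eq_pow_finrank (K := ZMod 2) (V := V)
  rwa [Nat.card_zmod] at h

/-- a homomorphic section -/
theorem exists_section {G V : Type} [CommGroup G] [AddCommGroup V] [Module (ZMod 2) V]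
    (hG : ∀ a : G, a * a = 1) (φ : G → V) (hφ : Function.Surjective φ)
    (hadd : ∀ x y, φ (x * y) = φ x + φ y) :
    ∃ s : V → G, (∀ v w, s (v + w) = s v * s w) ∧ ∀ v, φ (s v) = v := by
  let _ : Module (ZMod 2) (Additive G) := AddCommGroup.zmodModule (n := 2) (by
    intro x
    rw [two_nsmul]
    exact hG (Additive.toMul x))
  let Φ : Additive G →+ V := AddMonoidHom.mk' (fun x => φ (Additive.toMul x)) (by
    intro x y
    exact hadd _ _)
  obtain ⟨σ, hσ⟩ := LinearMap.exists_rightInverse_of_surjective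
    (Φ.toZModLinearMap 2) (by
      rw [LinearMap.range_eq_top]
      intro v
      obtain ⟨x, hx⟩ := hφ v
      exact ⟨Additive.ofMul x, hx⟩)
  refine ⟨fun v => Additive.toMul (σ v), fun v w => ?_, fun v => ?_⟩
  · show Additive.toMul (σ (v + w)) = _
    rw [map_add]
    rfl
  · exact congrArg (fun f : V →ₗ[ZMod 2] V => f v) hσ

theorem two_cases (c : ZMod 2) : c = 0 ∨ c = 1 := by
  fin_cases c
  · exact Or.inl rfl
  · exact Or.inr rfl

theorem add_self2 {V : Type} [AddCommGroup V] [Module (ZMod 2) V] (v : V) : v + v = 0 := by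
  rw [← two_smul (ZMod 2) v, show (2 : ZMod 2) = 0 from rfl, zero_smul]

theorem neg_self2 {V : Type} [AddCommGroup V] [Module (ZMod 2) V] (v : V) : -v = v :=
  neg_eq_of_add_eq_zero_left (add_self2 v)

section

variable {V K : Type} [AddCommGroup V] [Module (ZMod 2) V] [Finite V] [AddCommGroup K]
  [Module (ZMod 2) K] [Finite K] {W : Submodule (ZMod 2) V}
  {β : W →ₗ[ZMod 2] V →ₗ[ZMod 2] K} {n : ℕ} {θ : Fin n → K} {Lb : Fin n → Submodule (ZMod 2) W}

omit [Finite V] [Finite K] in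
theorem off_diag (hsymm : ∀ u v : W, β u v = β v u) (hθ : LinearIndependent (ZMod 2) θ)
    (hL : ∀ i, Lb i ≤ UE β (Submodule.span (ZMod 2) {θ i})) {i j : Fin n} (hij : i ≠ j)
    {u v : W} (hu : u ∈ Lb i) (hv : v ∈ Lb j) : β u v = 0 := by
  have h1 : β u v ∈ Submodule.span (ZMod 2) {θ i} := hL i hu v
  have h2 : β u v ∈ Submodule.span (ZMod 2) {θ j} := by
    rw [hsymm]
    exact hL j hv u
  obtain ⟨a, ha⟩ := Submodule.mem_span_singleton.1 h1
  obtain ⟨b, hb⟩ := Submodule.mem_span_singleton.1 h2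
  have h3 := Fintype.linearIndependent_iff.1 hθ (Pi.single i a - Pi.single j b) (by
    simp only [Pi.sub_apply, sub_smul, Finset.sum_sub_distrib, Pi.single_apply, ite_smul,
      zero_smul, Finset.sum_ite_eq', Finset.mem_univ, if_true]
    rw [ha, hb, sub_self]) i
  rw [Pi.sub_apply, Pi.single_eq_same, Pi.single_eq_of_ne hij, sub_zero] at h3
  rw [← ha, h3, zero_smul]

omit [Finite V] [Finite K] in
theorem diag_cases (hL : ∀ i, Lb i ≤ UE β (Submodule.span (ZMod 2) {θ i})) {i : Fin n}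
    {u v : W} (hu : u ∈ Lb i) : β u v = 0 ∨ β u v = θ i := by
  obtain ⟨a, ha⟩ := Submodule.mem_span_singleton.1 (hL i hu v)
  rcases two_cases a with rfl | rfl
  · left
    rw [← ha, zero_smul]
  · right
    rw [← ha, one_smul]

omit [Finite K] in
/-- the orthogonal complement has few elements -/
theorem card_perp {D : ℕ}
    (hdec : ∀ x : V, ∃! p : Fin n → W, (∀ i, p i ∈ Lb i) ∧
        ∀ i, ∀ u ∈ Lb i, β u (x - ∑ j, (p j : V)) = 0)
    (hdim : finrank (ZMod 2) V ≤ ∑ i, finrank (ZMod 2) (Lb i) + (n + 1) * D) :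
    Nat.card {v : V // ∀ i, ∀ u ∈ Lb i, β u v = 0} ≤ 2 ^ ((n + 1) * D) := by
  let f : {v : V // ∀ i, ∀ u ∈ Lb i, β u v = 0} × (∀ i, Lb i) → V := fun z =>
    z.1.1 + ∑ j, ((z.2 j : W) : V)
  have hf : Function.Injective f := by
    rintro ⟨⟨v, hv⟩, p⟩ ⟨⟨v', hv'⟩, p'⟩ h
    have h0 : v + ∑ j, ((p j : W) : V) = v' + ∑ j, ((p' j : W) : V) := h
    have h1 : (fun j => (p j : W)) = fun j => (p' j : W) := by
      refine (hdec (v + ∑ j, ((p j : W) : V))).unique ⟨fun i => (p i).2, fun i u hu => ?_⟩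
        ⟨fun i => (p' i).2, fun i u hu => ?_⟩
      · rw [add_sub_cancel_right]
        exact hv i u hu
      · rw [h0, add_sub_cancel_right]
        exact hv' i u hu
    have h2 : p = p' := by
      funext j
      exact Subtype.ext (congrFun h1 j)
    subst h2
    have h3 : v = v' := add_right_cancel h0
    subst h3
    rfl
  have h1 := Nat.card_le_card_of_injective f hf
  rw [Nat.card_prod, Nat.card_pi, card_pow (V := V),
    Finset.prod_congr rfl fun i _ => card_pow (V := Lb i), Finset.prod_pow_eq_pow_sum] at h1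
  have h2 : (2 : ℕ) ^ finrank (ZMod 2) V ≤
      2 ^ ((n + 1) * D) * 2 ^ (∑ i, finrank (ZMod 2) (Lb i)) := by
    rw [← pow_add, add_comm]
    exact Nat.pow_le_pow_right (by norm_num) hdim
  exact Nat.le_of_mul_le_mul_right (h1.trans h2) (by positivity)

end

theorem t_STR : S_STR := by
  classical
  intro hA1 hA2 hFIN hNDG S hS hfin k hk
  obtain ⟨U, a, hsub, hind, hidx⟩ := hA1 S hS hfin k hk
  obtain ⟨V, K, _, _, _, _, _, _, W, β, φ, ψ, hlin, hφ, hadd, hrad, -, hψ, hψ0, hval, hK, hV⟩ :=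
    hA2 S hS hfin U a hsub hind
  -- dimensions
  have hr : finrank (ZMod 2) K ≤ k := by
    have h1 := hk a
    rw [← hK, card_pow] at h1
    exact (Nat.pow_le_pow_iff_right (by norm_num)).1 h1
  obtain ⟨c, hc⟩ : ∃ c, finrank (ZMod 2) V = finrank (ZMod 2) W + c :=
    Nat.exists_eq_add_of_le (Submodule.finrank_le W)
  have hc0 : c ≤ 2 * k ^ 3 + k ^ 2 := by
    have h1 : (2 : ℕ) ^ finrank (ZMod 2) V ≤ 2 ^ (finrank (ZMod 2) W + (2 * k ^ 3 + k ^ 2)) := by
      rw [pow_add, ← card_pow (V := V), ← card_pow (V := W)]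
      exact hV.trans (Nat.mul_le_mul_left _ hidx)
    have h2 := (Nat.pow_le_pow_iff_right (by norm_num)).1 h1
    omega
  obtain ⟨n, θ, hn, hθ, hdim⟩ := hFIN V K W β c hlin hc
  obtain ⟨Lb, hL1, hL2, hL3, hL4⟩ := hNDG V K W β _ hlin n θ hθ hdim
  obtain ⟨s, hs, hφs⟩ := exists_section hS.exp2 φ hφ hadd
  have hs0 : s 0 = 1 := by
    have h1 := hs 0 0
    rw [add_zero] at h1
    exact mul_left_cancel (a := s 0) (by rw [mul_one]; exact h1.symm)
  have hsum : ∀ (f : Fin n → V), s (∑ i, f i) = ∏ i, s (f i) := by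
    intro f
    induction (Finset.univ : Finset (Fin n)) using Finset.induction_on with
    | empty => rw [Finset.sum_empty, Finset.prod_empty, hs0]
    | insert a t ha ih => rw [Finset.sum_insert ha, Finset.prod_insert ha, hs, ih]
  have hq : ∀ (u : W) (g : S.G) (v : V), φ g = v → S.q (s u) g = ψ (β u v) := by
    intro u g v hg
    have h0 : φ (s (u : V)) ∈ W := by
      rw [hφs]
      exact u.2
    rw [← hval (s u) g h0, hg]
    congr 3
    exact Subtype.ext (hφs u)
  have hq0 : ∀ (u : W) (g : S.G), S.q (s u) g = S.zero ↔ β u (φ g) = 0 := by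
    intro u g
    rw [hq u g (φ g) rfl, ← hψ0]
    exact ⟨fun h => hψ h, fun h => by rw [h]⟩
  let L : Fin n → Subgroup S.G := fun i =>
    { carrier := {g | ∃ w ∈ Lb i, s (w : V) = g}
      mul_mem' := by
        rintro _ _ ⟨w, hw, rfl⟩ ⟨w', hw', rfl⟩
        exact ⟨w + w', (Lb i).add_mem hw hw', by rw [Submodule.coe_add, hs]⟩
      one_mem' := ⟨0, (Lb i).zero_mem, by rw [Submodule.coe_zero, hs0]⟩
      inv_mem' := by
        rintro _ ⟨w, hw, rfl⟩
        refine ⟨w, hw, ?_⟩
        exact eq_inv_of_mul_eq_one_left (hS.exp2 _) }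
  let B : Subgroup S.G :=
    { carrier := {g | ∀ i, ∀ u ∈ Lb i, β u (φ g) = 0}
      mul_mem' := by
        intro x y hx hy i u hu
        rw [hadd, map_add, hx i u hu, hy i u hu, add_zero]
      one_mem' := by
        intro i u hu
        have h1 : φ 1 = 0 := by
          rw [← hs0, hφs]
        rw [h1, map_zero]
      inv_mem' := by
        intro x hx i u hu
        have h1 : x⁻¹ = x := (eq_inv_of_mul_eq_one_left (hS.exp2 x)).symm
        rw [h1]
        exact hx i u hu }
  have hmemB : ∀ g, g ∈ B ↔ ∀ i, ∀ u ∈ Lb i, β u (φ g) = 0 := fun g => Iff.rfl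
  refine ⟨n, L, B, fun _ g h => if S.q g h = S.zero then 0 else 1,
    fun c => ψ (∑ i, c i • θ i), hn.trans hr, ⟨?_, ?_, ?_, ?_, ?_, ?_⟩, ?_⟩
  · -- injectivity
    intro c c' h
    have h1 := hψ h
    have h2 := Fintype.linearIndependent_iff.1 hθ (fun i => c i - c' i) (by
      simp only [sub_smul, Finset.sum_sub_distrib]
      exact sub_eq_zero.2 h1)
    funext i
    exact sub_eq_zero.1 (h2 i)
  · simp [hψ0]
  · -- values
    intro l l' hl hl'
    choose w hw hwl using hl
    choose w' hw' hwl' using hl'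
    have e1 : ∏ i, l i = s ((∑ i, w i : W) : V) := by
      rw [Submodule.coe_sum, hsum]
      exact Finset.prod_congr rfl fun i _ => (hwl i).symm
    have e2 : φ (∏ i, l' i) = ((∑ i, w' i : W) : V) := by
      have e3 : ∏ i, l' i = s ((∑ i, w' i : W) : V) := by
        rw [Submodule.coe_sum, hsum]
        exact Finset.prod_congr rfl fun i _ => (hwl' i).symm
      rw [e3, hφs]
    rw [e1, hq _ _ _ e2]
    congr 1
    rw [map_sum, LinearMap.sum_apply]
    refine Finset.sum_congr rfl fun i _ => ?_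
    rw [Submodule.coe_sum, map_sum, Finset.sum_eq_single i]
    · show _ = (if S.q (l i) (l' i) = S.zero then (0 : ZMod 2) else 1) • θ i
      rcases diag_cases hL1 (v := w' i) (hw i) with h1 | h1
      · rw [h1, if_pos, zero_smul]
        rw [← hwl i, ← hwl' i, hq0, hφs]
        exact h1
      · by_cases h2 : θ i = 0
        · rw [h1, h2, smul_zero]
        · rw [h1, if_neg, one_smul]
          rw [← hwl i, ← hwl' i, hq0, hφs, h1]
          exact h2
    · intro j _ hj
      exact off_diag hlin.symm hθ hL1 (Ne.symm hj) (hw i) (hw' j)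
    · intro h
      exact absurd (Finset.mem_univ i) h
  · -- nondegenerate
    rintro i _ ⟨w, hw, rfl⟩ hne
    have hw0 : w ≠ 0 := by
      rintro rfl
      exact hne (by rw [Submodule.coe_zero, hs0])
    obtain ⟨v, hv, hwv⟩ := hL2 i w hw hw0
    refine ⟨s v, ⟨v, hv, rfl⟩, ?_⟩
    show (if S.q (s w) (s v) = S.zero then (0 : ZMod 2) else 1) ≠ 0
    rw [if_neg]
    · exact one_ne_zero
    · rw [hq0, hφs]
      exact hwv
  · -- the orthogonal complement
    intro x
    rw [hmemB]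
    constructor
    · rintro h i _ ⟨w, hw, rfl⟩
      rw [hq0]
      exact h i w hw
    · intro h i u hu
      rw [← hq0]
      exact h i (s u) ⟨u, hu, rfl⟩
  · -- decomposition
    intro x
    obtain ⟨p, ⟨hp1, hp2⟩, hp3⟩ := hL3 (φ x)
    have hφp : ∀ w : Fin n → W, φ (x * ∏ i, s (w i : V)) = φ x - ∑ j, (w j : V) := by
      intro w
      rw [hadd, ← hsum, hφs, sub_eq_add_neg, neg_self2]
    refine ⟨fun i => s (p i), ⟨fun i => ⟨p i, hp1 i, rfl⟩, ?_⟩, ?_⟩
    · show x * ∏ i, s (p i : V) ∈ B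
      rw [hmemB, hφp]
      exact hp2
    · rintro y ⟨hy1, hy2⟩
      choose w hw hwy using hy1
      have hy : y = fun i => s (w i : V) := funext fun i => (hwy i).symm
      subst hy
      have h1 : w = p := hp3 w ⟨hw, by
        rw [hmemB, hφp] at hy2
        exact hy2⟩
      rw [h1]
  · -- the number of elements
    have h1 : Nat.card B ≤ Nat.card ({r : S.G // ∀ b, S.q r b = S.zero} ×
        {v : V // ∀ i, ∀ u ∈ Lb i, β u v = 0}) := by
      refine Nat.card_le_card_of_injective (fun x : B =>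
        (⟨x.1 * s (φ x.1), (hrad _).1 (by rw [hadd, hφs, add_self2])⟩, ⟨φ x.1, x.2⟩)) ?_
      rintro ⟨x, hx⟩ ⟨y, hy⟩ h
      simp only [Prod.mk.injEq, Subtype.mk.injEq] at h
      rw [h.2] at h
      exact Subtype.ext (mul_right_cancel h.1)
    rw [Nat.card_prod] at h1
    have h2 := card_perp hL3 hL4
    calc Nat.card B ≤ _ := h1
      _ ≤ radCard S * 2 ^ ((n + 1) * (4 ^ finrank (ZMod 2) K *
            (c + 15 * finrank (ZMod 2) K ^ 2))) := Nat.mul_le_mul_left _ h2
      _ ≤ radCard S * 2 ^ (16 * 16 ^ k) :=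
          Nat.mul_le_mul_left _ (Nat.pow_le_pow_right (by norm_num) (num_le2 hr hn hc0))
      _ = _ := mul_comm _ _

end Pool.Agent.Y978.QB
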